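import Pool.Agent.N299.PX.Stm

/-!
# PX/TT: almost central cofactors from local `𝒵`-stability (helper749)
-/

set_option autoImplicit false

noncomputable section

namespace Pool.Agent.N749.PX.TT

open Pool.Agent.N299 Pool.Agent.N299.ND Pool.Agent.N299.PX

section

variable {B : Type} [CStarAlgebra B]

/-- the almost inverse of a positive contraction -/
lemma inv_data {κ : B} (hκ : Pos κ) {δ : ℝ} (hδ : 0 < δ) : ∃ g h : B, star g = g ∧ star h = h ∧
    ‖g‖ ≤ 1 / δ ∧ ‖h‖ ≤ 1 ∧ κ * g = 1 - h ∧ ‖κ * g‖ ≤ 1 ∧ ‖h * κ‖ ≤ δ ∧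
    ∀ a, ‖g * a - a * g‖ ≤ (1 / δ) * ‖κ * a - a * κ‖ * (1 / δ) := by
  let _ : PartialOrder B := CStarAlgebra.spectralOrder B
  let _ : StarOrderedRing B := CStarAlgebra.spectralOrderedRing B
  have hsa : IsSelfAdjoint κ := hκ.sa
  rw [pos_iff] at hκ
  have hsp : ∀ t ∈ spectrum ℝ κ, 0 ≤ t := fun t ht => spectrum_nonneg_of_nonneg hκ ht
  have hne : ∀ t ∈ spectrum ℝ κ, t + δ ≠ 0 := fun t ht => by
    have := hsp t ht
    positivity
  have hc1 : ContinuousOn (fun t : ℝ => (t + δ)⁻¹) (spectrum ℝ κ) :=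
    ContinuousOn.inv₀ (by fun_prop) hne
  have hc3 : ContinuousOn (fun t : ℝ => δ * (t + δ)⁻¹) (spectrum ℝ κ) :=
    continuousOn_const.mul hc1
  have hid : cfc (fun t : ℝ => t) κ = κ := cfc_id' ℝ κ
  have e1 : κ * cfc (fun t : ℝ => (t + δ)⁻¹) κ = cfc (fun t : ℝ => t * (t + δ)⁻¹) κ := by
    nth_rewrite 1 [← hid]
    rw [← cfc_mul (R := ℝ) (fun t : ℝ => t) _ κ (by fun_prop) hc1]
  have hK : κ + algebraMap ℝ B δ = cfc (fun t : ℝ => t + δ) κ := by
    rw [cfc_add (R := ℝ) κ (fun t : ℝ => t) (fun _ => δ) (by fun_prop) (by fun_prop), hid,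
      cfc_const (R := ℝ) δ κ]
  have hgK : cfc (fun t : ℝ => (t + δ)⁻¹) κ * (κ + algebraMap ℝ B δ) = 1 := by
    rw [hK, ← cfc_mul (R := ℝ) _ _ κ hc1 (by fun_prop), ← cfc_one ℝ κ]
    refine cfc_congr fun t ht => ?_
    simp only [Pi.one_apply]
    exact inv_mul_cancel₀ (hne t ht)
  have hKg : (κ + algebraMap ℝ B δ) * cfc (fun t : ℝ => (t + δ)⁻¹) κ = 1 := by
    rw [hK, ← cfc_mul (R := ℝ) _ _ κ (by fun_prop) hc1, ← cfc_one ℝ κ]
    refine cfc_congr fun t ht => ?_
    simp only [Pi.one_apply]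
    exact mul_inv_cancel₀ (hne t ht)
  have hgn : ‖cfc (fun t : ℝ => (t + δ)⁻¹) κ‖ ≤ 1 / δ := by
    refine norm_cfc_le (by positivity) fun t ht => ?_
    have := hsp t ht
    rw [Real.norm_eq_abs, abs_of_nonneg (by positivity), one_div]
    exact inv_anti₀ hδ (by linarith)
  refine ⟨cfc (fun t : ℝ => (t + δ)⁻¹) κ, cfc (fun t : ℝ => δ * (t + δ)⁻¹) κ, cfc_sa _ _,
    cfc_sa _ _, hgn, ?_, ?_, ?_, ?_, ?_⟩
  · refine norm_cfc_le (by norm_num) fun t ht => ?_
    have := hsp t ht
    rw [Real.norm_eq_abs, abs_of_nonneg (by positivity), ← div_eq_mul_inv,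
      div_le_one (by positivity)]
    linarith
  · rw [e1, ← cfc_one ℝ κ, ← cfc_sub (R := ℝ) _ _ κ (by exact continuousOn_const) hc3]
    refine cfc_congr fun t ht => ?_
    have := hne t ht
    simp only [Pi.one_apply]
    field_simp
    ring
  · rw [e1]
    refine norm_cfc_le (by norm_num) fun t ht => ?_
    have := hsp t ht
    rw [Real.norm_eq_abs, abs_of_nonneg (by positivity), ← div_eq_mul_inv,
      div_le_one (by positivity)]
    linarith
  · have e2 : cfc (fun t : ℝ => δ * (t + δ)⁻¹) κ * κ =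
        cfc (fun t : ℝ => δ * (t + δ)⁻¹ * t) κ := by
      nth_rewrite 2 [← hid]
      rw [← cfc_mul (R := ℝ) _ (fun t : ℝ => t) κ hc3 (by fun_prop)]
    rw [e2]
    refine norm_cfc_le hδ.le fun t ht => ?_
    have := hsp t ht
    rw [Real.norm_eq_abs, abs_of_nonneg (by positivity), mul_assoc]
    have h3 : (t + δ)⁻¹ * t ≤ 1 := by
      rw [mul_comm, ← div_eq_mul_inv, div_le_one (by positivity)]
      linarith
    nlinarith
  · intro a
    obtain ⟨g, hg⟩ : ∃ g, g = cfc (fun t : ℝ => (t + δ)⁻¹) κ := ⟨_, rfl⟩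
    rw [← hg] at hgK hKg hgn ⊢
    have hcm : algebraMap ℝ B δ * a = a * algebraMap ℝ B δ := Algebra.commutes δ a
    have e3 : g * a - a * g = g * (a * κ - κ * a) * g := by
      have i1 : g * (a * (κ + algebraMap ℝ B δ)) * g = g * a := by
        rw [mul_assoc, mul_assoc, hKg, mul_one]
      have i2 : g * ((κ + algebraMap ℝ B δ) * a) * g = a * g := by
        rw [← mul_assoc, hgK, one_mul]
      have i3 : a * κ - κ * a = a * (κ + algebraMap ℝ B δ) - (κ + algebraMap ℝ B δ) * a := by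
        rw [mul_add, add_mul, hcm]
        abel
      rw [i3, mul_sub, sub_mul, i1, i2]
    rw [e3, norm_sub_rev (κ * a)]
    calc ‖g * (a * κ - κ * a) * g‖ ≤ ‖g * (a * κ - κ * a)‖ * ‖g‖ := norm_mul_le _ _
      _ ≤ ‖g‖ * ‖a * κ - κ * a‖ * ‖g‖ := by
          gcongr
          exact norm_mul_le _ _
      _ ≤ (1 / δ) * ‖a * κ - κ * a‖ * (1 / δ) := by gcongr

/-- the estimate for one element -/
lemma small {κ h cp a : B} {δ R η : ℝ} (hκ : star κ = κ) (hh : star h = h) (hhn : ‖h‖ ≤ 1)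
    (hhk : ‖h * κ‖ ≤ δ) (hδ : 0 < δ) (hη : 0 ≤ η) (hR : 1 ≤ R) (ha : ‖a‖ ≤ R)
    (h1 : ‖cp * a - a * cp‖ ≤ η) (h2 : ‖κ * a - a * κ‖ ≤ η)
    (h3 : ‖(cp * star cp - κ * κ) * star a‖ ≤ η) (hη1 : η ≤ δ * R / 8) (hη2 : η ≤ δ ^ 2 * R / 4) :
    ‖h * cp * a‖ ≤ 3 / 2 * δ * R := by
  have ha0 := norm_nonneg a
  -- the product with `κ`
  have i1 : ‖h * a * κ‖ ≤ δ * R + η := by
    have e : h * a * κ = h * κ * a - h * (κ * a - a * κ) := by
      simp only [mul_sub, mul_assoc]
      abel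
    rw [e]
    refine (norm_sub_le _ _).trans ?_
    have j1 : ‖h * κ * a‖ ≤ δ * R :=
      (norm_mul_le _ _).trans (mul_le_mul hhk ha ha0 hδ.le)
    have j2 : ‖h * (κ * a - a * κ)‖ ≤ η :=
      (norm_mul_le _ _).trans (by
        calc ‖h‖ * ‖κ * a - a * κ‖ ≤ 1 * η := mul_le_mul hhn h2 (norm_nonneg _) (by norm_num)
          _ = η := one_mul η)
    linarith
  have i2 : ‖h * a * cp‖ ^ 2 ≤ (δ * R + η) ^ 2 + R * η := by
    have e : h * a * cp * star (h * a * cp) =
        h * a * κ * star (h * a * κ) + h * a * ((cp * star cp - κ * κ) * star a) * h := by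
      simp only [star_mul, hh, hκ, mul_sub, sub_mul, mul_assoc]
      abel
    rw [sq, ← CStarRing.norm_self_mul_star, e]
    refine (norm_add_le _ _).trans ?_
    rw [CStarRing.norm_self_mul_star, ← sq]
    have j1 : ‖h * a * κ‖ ^ 2 ≤ (δ * R + η) ^ 2 := pow_le_pow_left₀ (norm_nonneg _) i1 2
    have j2 : ‖h * a * ((cp * star cp - κ * κ) * star a) * h‖ ≤ R * η := by
      calc ‖h * a * ((cp * star cp - κ * κ) * star a) * h‖
          ≤ ‖h * a * ((cp * star cp - κ * κ) * star a)‖ * ‖h‖ := norm_mul_le _ _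
        _ ≤ ‖h * a * ((cp * star cp - κ * κ) * star a)‖ * 1 := by gcongr
        _ = ‖h * a * ((cp * star cp - κ * κ) * star a)‖ := mul_one _
        _ ≤ ‖h * a‖ * ‖(cp * star cp - κ * κ) * star a‖ := norm_mul_le _ _
        _ ≤ (‖h‖ * ‖a‖) * η := mul_le_mul (norm_mul_le _ _) h3 (norm_nonneg _) (by positivity)
        _ ≤ (1 * R) * η := by gcongr
        _ = R * η := by rw [one_mul]
    linarith
  have i3 : ‖h * a * cp‖ ≤ 5 / 4 * (δ * R) := by
    apply le_of_sq_le_sq _ (by positivity)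
    refine i2.trans ?_
    have hdr : 0 < δ * R := by positivity
    have k1 : (δ * R + η) ^ 2 ≤ (9 / 8 * (δ * R)) ^ 2 := by
      apply pow_le_pow_left₀ (by positivity)
      linarith
    have k2 : R * η ≤ (δ * R) ^ 2 / 4 := by
      calc R * η ≤ R * (δ ^ 2 * R / 4) := by gcongr
        _ = (δ * R) ^ 2 / 4 := by ring
    nlinarith [sq_nonneg (δ * R)]
  have e4 : h * cp * a = h * a * cp + h * (cp * a - a * cp) := by
    simp only [mul_sub, mul_assoc]
    abel
  rw [e4]
  refine (norm_add_le _ _).trans ?_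
  have j3 : ‖h * (cp * a - a * cp)‖ ≤ η :=
    (norm_mul_le _ _).trans (by
      calc ‖h‖ * ‖cp * a - a * cp‖ ≤ 1 * η := mul_le_mul hhn h1 (norm_nonneg _) (by norm_num)
        _ = η := one_mul η)
  have hdr : 0 < δ * R := by positivity
  nlinarith

end

/-- PX/TT -/
theorem t_TT : S_TT := by
  intro B _ I hI hZ N F ε hF hε
  classical
  obtain ⟨R, hR⟩ : ∃ R : ℝ, R = 1 + ∑ a ∈ F, ‖a‖ := ⟨_, rfl⟩
  have hR1 : 1 ≤ R := by
    rw [hR]
    have := Finset.sum_nonneg (s := F) fun a _ => norm_nonneg a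
    linarith
  have hRa : ∀ a ∈ F, ‖a‖ ≤ R := fun a ha => by
    rw [hR]
    have := Finset.single_le_sum (f := fun a : B => ‖a‖) (fun a _ => norm_nonneg a) ha
    linarith
  have hR0 : 0 < R := by linarith
  obtain ⟨δ, hδe⟩ : ∃ δ : ℝ, δ = ε / (6 * (N + 1) * R) := ⟨_, rfl⟩
  have hδ : 0 < δ := by rw [hδe]; positivity
  refine ⟨max 1 (1 / δ), le_max_left _ _, fun F' ε' hF' hε' => ?_⟩
  obtain ⟨η, hηe⟩ : ∃ η : ℝ, η = min (min ε' (ε' / (1 / δ + 1 / δ * (1 / δ))))
    (min (δ * R / 8) (min (δ ^ 2 * R / 4) (ε / 6))) := ⟨_, rfl⟩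
  have hD : 0 < 1 / δ + 1 / δ * (1 / δ) := by positivity
  have hη : 0 < η := by
    rw [hηe]
    refine lt_min (lt_min hε' (by positivity)) (lt_min (by positivity)
      (lt_min (by positivity) (by positivity)))
  have hη1 : η ≤ ε' := by rw [hηe]; exact (min_le_left _ _).trans (min_le_left _ _)
  have hη2 : (1 / δ + 1 / δ * (1 / δ)) * η ≤ ε' := by
    have : η ≤ ε' / (1 / δ + 1 / δ * (1 / δ)) := by
      rw [hηe]; exact (min_le_left _ _).trans (min_le_right _ _)
    rwa [le_div_iff₀ hD, mul_comm] at this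
  have hη3 : η ≤ δ * R / 8 := by rw [hηe]; exact (min_le_right _ _).trans (min_le_left _ _)
  have hη4 : η ≤ δ ^ 2 * R / 4 := by
    rw [hηe]; exact (min_le_right _ _).trans ((min_le_right _ _).trans (min_le_left _ _))
  have hη5 : η ≤ ε / 6 := by
    rw [hηe]; exact (min_le_right _ _).trans ((min_le_right _ _).trans (min_le_right _ _))
  obtain ⟨c, s, hcI, hsI, hcn, hsn, ⟨d, hdI, hd⟩, hall⟩ := hZ N ((F ∪ F') ∪ F.image star) η (by
    intro a ha
    rw [Finset.mem_union, Finset.mem_union, Finset.mem_image] at ha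
    rcases ha with (ha | ha) | ⟨a', ha', rfl⟩
    · exact hF a ha
    · exact hF' a ha
    · exact hI.star _ (hF a' ha')) hη
  have hκ : Pos (c 0) := ⟨d, hd⟩
  obtain ⟨g, h, hg, hh, hgn, hhn, hgk, hgk1, hhk, hcom⟩ := inv_data hκ hδ
  have hmF : ∀ a ∈ F, a ∈ (F ∪ F') ∪ F.image star := fun a ha =>
    Finset.mem_union_left _ (Finset.mem_union_left _ ha)
  have hmF' : ∀ a ∈ F', a ∈ (F ∪ F') ∪ F.image star := fun a ha =>
    Finset.mem_union_left _ (Finset.mem_union_right _ ha)
  have hmS : ∀ a ∈ F, star a ∈ (F ∪ F') ∪ F.image star := fun a ha =>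
    Finset.mem_union_right _ (Finset.mem_image_of_mem _ ha)
  obtain ⟨t, ht⟩ : ∃ t : Fin (N + 2) → B, t = Fin.snoc (α := fun _ => B) (fun i => g * c i) s :=
    ⟨_, rfl⟩
  have ht1 : ∀ i : Fin (N + 1), t i.castSucc = g * c i := fun i => by
    rw [ht]
    exact Fin.snoc_castSucc (α := fun _ => B) _ _ _
  have ht2 : t (Fin.last (N + 1)) = s := by
    rw [ht]
    exact Fin.snoc_last (α := fun _ => B) _ _
  refine ⟨c, t, hcI, ?_, hcn, ?_, hκ.sa, ?_, ?_⟩
  · intro p
    refine Fin.lastCases ?_ (fun i => ?_) p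
    · rw [ht2]; exact hsI
    · rw [ht1]; exact hI.mulL _ (hcI i) _
  · intro p
    refine Fin.lastCases ?_ (fun i => ?_) p
    · rw [ht2]; exact hsn.trans (le_max_left _ _)
    · rw [ht1]
      refine le_trans ?_ (le_max_right _ _)
      calc ‖g * c i‖ ≤ ‖g‖ * ‖c i‖ := norm_mul_le _ _
        _ ≤ (1 / δ) * 1 := mul_le_mul hgn (hcn i) (norm_nonneg _) (by positivity)
        _ = 1 / δ := mul_one _
  · intro a ha
    obtain ⟨k1, k2, k3, k4, -, -⟩ := hall a (hmF' a ha)
    refine ⟨fun i => (k1 i).trans hη1, ?_, ?_⟩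
    · intro p
      refine Fin.lastCases ?_ (fun i => ?_) p
      · rw [ht2]; exact k2.trans hη1
      · rw [ht1]
        have e : g * c i * a - a * (g * c i) = g * (c i * a - a * c i) + (g * a - a * g) * c i := by
          simp only [mul_sub, sub_mul, mul_assoc]
          abel
        rw [e]
        refine le_trans ?_ hη2
        refine (norm_add_le _ _).trans ?_
        have j1 : ‖g * (c i * a - a * c i)‖ ≤ 1 / δ * η :=
          (norm_mul_le _ _).trans (mul_le_mul hgn (k1 i) (norm_nonneg _) (by positivity))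
        have j2 : ‖(g * a - a * g) * c i‖ ≤ (1 / δ * η * (1 / δ)) * 1 := by
          refine (norm_mul_le _ _).trans (mul_le_mul ?_ (hcn i) (norm_nonneg _) (by positivity))
          refine (hcom a).trans ?_
          have := k1 0
          gcongr
        calc _ ≤ 1 / δ * η + (1 / δ * η * (1 / δ)) * 1 := add_le_add j1 j2
          _ = (1 / δ + 1 / δ * (1 / δ)) * η := by ring
    · intro i j
      by_cases hij : i = j
      · subst hij
        rw [if_pos rfl]
        exact (k3 i).trans hη1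
      · rw [if_neg hij, sub_zero]
        exact (k4 i j hij).trans hη1
  · intro a ha
    obtain ⟨k1, -, -, -, k5, k6⟩ := hall a (hmF a ha)
    obtain ⟨-, -, k7, -, -, -⟩ := hall (star a) (hmS a ha)
    have hκs := hκ.sa
    have hsm : ∀ i, ‖h * c i * a‖ ≤ 3 / 2 * δ * R := fun i =>
      small hκs hh hhn hhk hδ hη.le hR1 (hRa a ha) (k1 i) (k1 0) (k7 i) hη3 hη4
    have hterm : ∀ i, ‖(star (g * c i) * (c 0 * c 0) * (g * c i) - star (c i) * c i) * a‖ ≤
        3 * δ * R := by
      intro i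
      have hx : c 0 * (g * c i) = c i - h * c i := by
        rw [← mul_assoc, hgk, sub_mul, one_mul]
      have hxn : ‖c 0 * (g * c i)‖ ≤ 1 := by
        rw [← mul_assoc]
        calc ‖c 0 * g * c i‖ ≤ ‖c 0 * g‖ * ‖c i‖ := norm_mul_le _ _
          _ ≤ 1 * 1 := mul_le_mul hgk1 (hcn i) (norm_nonneg _) (by norm_num)
          _ = 1 := one_mul 1
      obtain ⟨x, hxe⟩ : ∃ x, x = c 0 * (g * c i) := ⟨_, rfl⟩
      have e1 : star (g * c i) * (c 0 * c 0) * (g * c i) = star x * x := by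
        rw [hxe, star_mul (c 0), hκs]
        simp only [mul_assoc]
      have e2 : (star x * x - star (c i) * c i) * a =
          -(star x * (h * c i * a)) - star (c i) * (h * c i * a) := by
        have i1 : x = c i - h * c i := by rw [hxe, hx]
        have i2 : star x = star (c i) - star (c i) * h := by
          rw [i1, star_sub, star_mul, hh]
        have i3 : star x * x - star (c i) * c i =
            star x * (x - c i) + (star x - star (c i)) * c i := by
          simp only [mul_sub, sub_mul]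
          abel
        have i4 : x - c i = -(h * c i) := by rw [i1]; abel
        have i5 : star x - star (c i) = -(star (c i) * h) := by rw [i2]; abel
        rw [i3, i4, i5]
        simp only [add_mul, neg_mul, mul_neg, mul_assoc]
        abel
      rw [e1, e2]
      have hxn' : ‖star x‖ ≤ 1 := by rw [norm_star, hxe]; exact hxn
      have hcn' : ‖star (c i)‖ ≤ 1 := by rw [norm_star]; exact hcn i
      have j1 : ‖star x * (h * c i * a)‖ ≤ 1 * (3 / 2 * δ * R) :=
        (norm_mul_le _ _).trans (mul_le_mul hxn' (hsm i) (norm_nonneg _) (by norm_num))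
      have j2 : ‖star (c i) * (h * c i * a)‖ ≤ 1 * (3 / 2 * δ * R) :=
        (norm_mul_le _ _).trans (mul_le_mul hcn' (hsm i) (norm_nonneg _) (by norm_num))
      refine (norm_sub_le _ _).trans ?_
      rw [norm_neg]
      linarith
    have hs : ‖(star s * (c 0 * c 0) * s - star s * s) * a‖ ≤ 2 * η := by
      have e : (star s * (c 0 * c 0) * s - star s * s) * a =
          star s * (c 0 * ((c 0 * s - s) * a)) + star s * ((c 0 * s - s) * a) := by
        simp only [mul_sub, sub_mul, mul_assoc]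
        abel
      rw [e]
      have hsn' : ‖star s‖ ≤ 1 := by rw [norm_star]; exact hsn
      have j0 : ‖c 0 * ((c 0 * s - s) * a)‖ ≤ 1 * η :=
        (norm_mul_le _ _).trans (mul_le_mul (hcn 0) k6 (norm_nonneg _) (by norm_num))
      have j1 : ‖star s * (c 0 * ((c 0 * s - s) * a))‖ ≤ 1 * (1 * η) :=
        (norm_mul_le _ _).trans (mul_le_mul hsn' j0 (norm_nonneg _) (by norm_num))
      have j2 : ‖star s * ((c 0 * s - s) * a)‖ ≤ 1 * η :=
        (norm_mul_le _ _).trans (mul_le_mul hsn' k6 (norm_nonneg _) (by norm_num))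
      refine (norm_add_le _ _).trans ?_
      linarith
    have e : (∑ p, star (t p) * (c 0 * c 0) * t p) * a - a =
        ((star s * s + ∑ i, star (c i) * c i) * a - a) +
        (∑ i, (star (g * c i) * (c 0 * c 0) * (g * c i) - star (c i) * c i) * a) +
        (star s * (c 0 * c 0) * s - star s * s) * a := by
      rw [Fin.sum_univ_castSucc, ht2]
      simp only [ht1]
      rw [← Finset.sum_mul, Finset.sum_sub_distrib]
      simp only [add_mul, sub_mul]
      abel
    rw [e]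
    have hsum : ‖∑ i, (star (g * c i) * (c 0 * c 0) * (g * c i) - star (c i) * c i) * a‖ ≤
        (N + 1) * (3 * δ * R) := by
      refine (norm_sum_le _ _).trans ((Finset.sum_le_card_nsmul _ _ _ fun i _ => hterm i).trans ?_)
      rw [Finset.card_univ, Fintype.card_fin, nsmul_eq_mul]
      push_cast
      exact le_rfl
    have hfin : (N + 1 : ℝ) * (3 * δ * R) = ε / 2 := by
      rw [hδe]
      field_simp
      ring
    calc _ ≤ ‖((star s * s + ∑ i, star (c i) * c i) * a - a) +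
        (∑ i, (star (g * c i) * (c 0 * c 0) * (g * c i) - star (c i) * c i) * a)‖ +
        ‖(star s * (c 0 * c 0) * s - star s * s) * a‖ := norm_add_le _ _
      _ ≤ (η + (N + 1) * (3 * δ * R)) + 2 * η := by
          gcongr
          exact (norm_add_le _ _).trans (add_le_add k5 hsum)
      _ ≤ ε := by rw [hfin]; linarith

end Pool.Agent.N749.PX.TT
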